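import Pool.Agent.Lib.MP_472c23_co.NotPoly
import Pool.Agent.Lib.MP_472c23_co.SmallN

/-!
# The q-factorial ratios `P_{1,n}, …, P_{5,n}`: complete answer

`P_{1,n}, P_{2,n}, P_{3,n}` (`n ≥ 1`) are polynomials with non-negative integer coefficients.
For `n ≥ 2`, the ratios `P_{4,n}` and `P_{5,n}` are polynomials exactly when `n ≢ 1 (mod 9)`, and
in that case their coefficients are non-negative integers.
-/

set_option autoImplicit false

namespace Pool.Agent.Results.MP_472c23_co.ExactAnswer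

open Polynomial Pool.Agent.Lib.MP_472c23_co

/-- the embedding of integer polynomials in `ℚ(q)` -/
noncomputable def φ : ℤ[X] →+* RatFunc ℚ :=
  (algebraMap ℚ[X] (RatFunc ℚ)).comp (Polynomial.mapRingHom (Int.castRingHom ℚ))

theorem φ_one_sub (b : ℕ) : φ (1 - X ^ b) = u b := by
  unfold φ u
  simp

theorem φ_Qp (m : ℕ) : φ (Qp m) = qfact m := by
  unfold Qp qfact
  rw [map_prod]
  exact Finset.prod_congr rfl fun i _ => φ_one_sub i

/-- a polynomial over `ℤ` with non-negative coefficients comes from `ℕ` -/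
theorem exists_nat {P : ℤ[X]} (hP : ∀ k, 0 ≤ P.coeff k) :
    ∃ P' : ℕ[X], P'.map (Nat.castRingHom ℤ) = P := by
  have h : P ∈ Polynomial.lifts (Nat.castRingHom ℤ) := by
    rw [Polynomial.lifts_iff_coeff_lifts]
    intro n
    exact ⟨(P.coeff n).toNat, by simp [hP n]⟩
  exact (Polynomial.mem_lifts _).mp h

theorem isNonneg_of {P : ℕ[X]} : IsNonnegIntPoly (φ (P.map (Nat.castRingHom ℤ))) := by
  refine ⟨P, ?_⟩
  unfold φ
  rw [RingHom.comp_apply, coe_mapRingHom, Polynomial.map_map]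
  rfl

/-- the basic ratio -/
theorem main {s n : ℕ} (hs : s = 1 ∨ s = 2 ∨ s = 4) (hn : 1 ≤ n) (hn4 : s = 4 → 2 ≤ n)
    (h9 : s = 4 → n % 9 ≠ 1) :
    ∃ P : ℕ[X], φ (P.map (Nat.castRingHom ℤ)) *
      ∏ i ∈ Finset.range s, u (2 * n + (2 * i + 1)) = (∏ i ∈ Finset.range s, u (2 * i + 1)) * F n := by
  obtain ⟨P, hP1, hP2⟩ := exists_S_all hs hn hn4 h9
  obtain ⟨P', hP'⟩ := exists_nat hP1
  refine ⟨P', ?_⟩
  have h1 := congrArg φ hP2
  simp only [map_mul, map_pow φ (Qp (2 * n)), map_prod, φ_one_sub, φ_Qp] at h1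
  rw [hP']
  have a4 := qfact_ne_zero (3 * n)
  have a5 := qfact_ne_zero (2 * n)
  unfold F
  field_simp
  linear_combination h1

theorem geom (n : ℕ) : φ ((∑ i ∈ Finset.range n, X ^ i : ℕ[X]).map (Nat.castRingHom ℤ)) * u 1 =
    u n := by
  rw [← φ_one_sub, ← φ_one_sub, ← map_mul]
  congr 1
  rw [Polynomial.map_sum]
  simp only [Polynomial.map_pow, map_X, pow_one]
  exact geom_sum_mul_neg X n

theorem nonneg_P1 {n : ℕ} (hn : 1 ≤ n) : IsNonnegIntPoly (P1 n) := by
  obtain ⟨P, hP⟩ := main (s := 1) (n := n) (by omega) hn (by omega) (by omega)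
  have e : P1 n = φ (P.map (Nat.castRingHom ℤ)) := by
    simp only [Finset.prod_range_one] at hP
    norm_num at hP
    unfold P1
    have a1 := u_ne_zero (m := 2 * n + 1) (by omega)
    field_simp
    linear_combination -hP
  rw [e]
  exact isNonneg_of

theorem nonneg_P3 {n : ℕ} (hn : 1 ≤ n) : IsNonnegIntPoly (P3 n) := by
  obtain ⟨P, hP⟩ := main (s := 2) (n := n) (by omega) hn (by omega) (by omega)
  have e : P3 n = φ (P.map (Nat.castRingHom ℤ)) := by
    simp only [Finset.prod_range_succ, Finset.prod_range_zero, one_mul] at hP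
    norm_num at hP
    unfold P3
    have a1 := u_ne_zero (m := 2 * n + 1) (by omega)
    have a2 := u_ne_zero (m := 2 * n + 3) (by omega)
    field_simp
    linear_combination -hP
  rw [e]
  exact isNonneg_of

theorem nonneg_P2 {n : ℕ} (hn : 1 ≤ n) : IsNonnegIntPoly (P2 n) := by
  obtain ⟨P, hP⟩ := main (s := 2) (n := n) (by omega) hn (by omega) (by omega)
  have hg := geom (2 * n + 1)
  have e : P2 n = φ ((P * ∑ i ∈ Finset.range (2 * n + 1), X ^ i : ℕ[X]).map
      (Nat.castRingHom ℤ)) := by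
    rw [Polynomial.map_mul, map_mul]
    simp only [Finset.prod_range_succ, Finset.prod_range_zero, one_mul] at hP
    norm_num at hP
    unfold P2
    have a0 := u_ne_zero (m := 1) (by omega)
    have a1 := u_ne_zero (m := 2 * n + 1) (by omega)
    have a2 := u_ne_zero (m := 2 * n + 3) (by omega)
    rw [div_mul_eq_mul_div, div_eq_iff a2]
    apply mul_left_cancel₀ a0
    rw [← hg] at hP
    have h2 : u 1 * (u 3 * F n) = u 1 * u 3 * F n := by ring
    rw [h2, ← hP]
    ring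
  rw [e]
  exact isNonneg_of

theorem nonneg_P4 {n : ℕ} (hn : 2 ≤ n) (h9 : n % 9 ≠ 1) : IsNonnegIntPoly (P4 n) := by
  obtain ⟨P, hP⟩ := main (s := 4) (n := n) (by omega) (by omega) (fun _ => hn) (fun _ => h9)
  have hg := geom (2 * n + 1)
  have e : P4 n = φ ((P * ∑ i ∈ Finset.range (2 * n + 1), X ^ i : ℕ[X]).map
      (Nat.castRingHom ℤ)) := by
    rw [Polynomial.map_mul, map_mul]
    simp only [Finset.prod_range_succ, Finset.prod_range_zero, one_mul] at hP
    norm_num at hP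
    unfold P4
    have a0 := u_ne_zero (m := 1) (by omega)
    have a1 := u_ne_zero (m := 2 * n + 3) (by omega)
    have a2 := u_ne_zero (m := 2 * n + 5) (by omega)
    have a3 := u_ne_zero (m := 2 * n + 7) (by omega)
    rw [div_mul_eq_mul_div, div_eq_iff (mul_ne_zero (mul_ne_zero a1 a2) a3)]
    apply mul_left_cancel₀ a0
    rw [← hg] at hP
    have h2 : u 1 * (u 3 * u 5 * u 7 * F n) = u 1 * u 3 * u 5 * u 7 * F n := by ring
    rw [h2, ← hP]
    ring
  rw [e]
  exact isNonneg_of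

theorem nonneg_P5 {n : ℕ} (hn : 2 ≤ n) (h9 : n % 9 ≠ 1) : IsNonnegIntPoly (P5 n) := by
  obtain ⟨P, hP⟩ := main (s := 4) (n := n) (by omega) (by omega) (fun _ => hn) (fun _ => h9)
  have hg := geom 3
  have e : P5 n = φ ((P * ∑ i ∈ Finset.range 3, X ^ i : ℕ[X]).map
      (Nat.castRingHom ℤ)) := by
    rw [Polynomial.map_mul, map_mul]
    simp only [Finset.prod_range_succ, Finset.prod_range_zero, one_mul] at hP
    norm_num at hP
    unfold P5
    have a0 := u_ne_zero (m := 1) (by omega)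
    have a1 := u_ne_zero (m := 2 * n + 1) (by omega)
    have a2 := u_ne_zero (m := 2 * n + 3) (by omega)
    have a3 := u_ne_zero (m := 2 * n + 5) (by omega)
    have a4 := u_ne_zero (m := 2 * n + 7) (by omega)
    rw [div_mul_eq_mul_div, div_eq_iff (mul_ne_zero (mul_ne_zero (mul_ne_zero a1 a2) a3) a4)]
    apply mul_left_cancel₀ a0
    have h2 : u 1 * (u 3 ^ 2 * u 5 * u 7 * F n) = u 3 * (u 1 * u 3 * u 5 * u 7 * F n) := by ring
    rw [h2, ← hP, ← hg]
    ring
  rw [e]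
  exact isNonneg_of

/-- **Complete answer.** -/
theorem result :
    (∀ n : ℕ, 1 ≤ n → IsNonnegIntPoly (P1 n) ∧ IsNonnegIntPoly (P2 n) ∧ IsNonnegIntPoly (P3 n)) ∧
    (∀ n : ℕ, 2 ≤ n → n % 9 ≠ 1 → IsNonnegIntPoly (P4 n) ∧ IsNonnegIntPoly (P5 n)) ∧
    (∀ n : ℕ, 2 ≤ n → n % 9 = 1 → ¬ IsPoly (P4 n) ∧ ¬ IsPoly (P5 n)) :=
  ⟨fun _ hn => ⟨nonneg_P1 hn, nonneg_P2 hn, nonneg_P3 hn⟩,
    fun _ hn h9 => ⟨nonneg_P4 hn h9, nonneg_P5 hn h9⟩,
    fun _ _ h9 => ⟨not_isPoly_P4 h9, not_isPoly_P5 h9⟩⟩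

end Pool.Agent.Results.MP_472c23_co.ExactAnswer
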